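import Pool.Agent.H11.PH.FreezeCov

/-! # Quadratic energy decay in the nondegenerate regime (job F for MP_6c6114_an) -/

open MeasureTheory Set Metric Filter Topology ContDiff Complex
open scoped ENNReal ComplexConjugate

namespace Pool.Agent.H11.PH

open Pool.Agent.H52.PH Pool.Agent.H41.PH

/-- The weight. -/
noncomputable def Ew (m c s : ℝ) : ℝ := (s ^ (-(1 / m)) + c) ^ (2 * m)

/-- Its derivative. -/
noncomputable def Ew' (m c s : ℝ) : ℝ :=
  -(2 * (s ^ (-(1 / m)) + c) ^ (2 * m - 1) * s ^ (-(1 / m) - 1))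

theorem base_pos {m c s : ℝ} (hc : 0 ≤ c) (hs : 0 < s) : 0 < s ^ (-(1 / m)) + c := by
  have := Real.rpow_pos_of_pos hs (-(1 / m))
  linarith

theorem Ew_hasDerivAt {m c s : ℝ} (hm : 1 ≤ m) (hc : 0 ≤ c) (hs : 0 < s) :
    HasDerivAt (Ew m c) (Ew' m c s) s := by
  have h1 : HasDerivAt (fun s : ℝ => s ^ (-(1 / m))) (-(1 / m) * s ^ (-(1 / m) - 1)) s :=
    Real.hasDerivAt_rpow_const (Or.inl hs.ne')
  have h2 := (h1.add_const c).rpow_const (p := 2 * m) (Or.inl (base_pos hc hs).ne')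
  refine h2.congr_deriv ?_
  unfold Ew'
  have hm0 : m ≠ 0 := by linarith
  field_simp

theorem Ew'_continuousOn {m c r R : ℝ} (hc : 0 ≤ c) (hr : 0 < r) :
    ContinuousOn (Ew' m c) (Icc r R) := by
  unfold Ew'
  have h1 : ∀ a : ℝ, ContinuousOn (fun s : ℝ => s ^ a) (Icc r R) := fun a =>
    ContinuousOn.rpow_const continuousOn_id (fun s hs => Or.inl (hr.trans_le hs.1).ne')
  have h2 : ContinuousOn (fun s : ℝ => (s ^ (-(1 / m)) + c) ^ (2 * m - 1)) (Icc r R) :=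
    ContinuousOn.rpow_const ((h1 _).add continuousOn_const)
      (fun s hs => Or.inl (base_pos hc (hr.trans_le hs.1)).ne')
  exact ((continuousOn_const.mul h2).mul (h1 _)).neg

theorem Ew'_nonpos {m c s : ℝ} (hc : 0 ≤ c) (hs : 0 < s) : Ew' m c s ≤ 0 := by
  unfold Ew'
  have h1 := Real.rpow_pos_of_pos (base_pos (m := m) hc hs) (2 * m - 1)
  have h2 := Real.rpow_pos_of_pos hs (-(1 / m) - 1)
  have := mul_pos h1 h2
  nlinarith

/-- The differential identity for the weight. -/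
theorem Ew_ode {m c s : ℝ} (hc : 0 ≤ c) (hs : 0 < s) :
    -Ew' m c s * s * (1 + c * s ^ (1 / m)) = 2 * Ew m c s := by
  unfold Ew' Ew
  set b := s ^ (-(1 / m)) + c with hb
  have hb0 : 0 < b := base_pos hc hs
  have h1 : s ^ (-(1 / m) - 1) * s = s ^ (-(1 / m)) := by
    rw [Real.rpow_sub_one hs.ne', div_mul_cancel₀ _ hs.ne']
  have h2 : s ^ (-(1 / m)) * s ^ (1 / m) = 1 := by
    rw [← Real.rpow_add hs]; simp
  have h3 : b ^ (2 * m) = b ^ (2 * m - 1) * b := by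
    rw [Real.rpow_sub_one hb0.ne', div_mul_cancel₀ _ hb0.ne']
  rw [h3]
  calc -(-(2 * b ^ (2 * m - 1) * s ^ (-(1 / m) - 1))) * s * (1 + c * s ^ (1 / m))
      = 2 * b ^ (2 * m - 1) * (s ^ (-(1 / m) - 1) * s) * (1 + c * s ^ (1 / m)) := by ring
    _ = 2 * b ^ (2 * m - 1) * (s ^ (-(1 / m)) + c * (s ^ (-(1 / m)) * s ^ (1 / m))) := by
        rw [h1]; ring
    _ = 2 * (b ^ (2 * m - 1) * b) := by rw [h2, mul_one, ← hb]; ring

theorem Ew_lower {m c r : ℝ} (hm : 1 ≤ m) (hc : 0 ≤ c) (hr : 0 < r) : r⁻¹ ^ 2 ≤ Ew m c r := by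
  unfold Ew
  have h1 := Real.rpow_pos_of_pos hr (-(1 / m))
  have h2 : (r ^ (-(1 / m))) ^ (2 * m) = r⁻¹ ^ 2 := by
    rw [← Real.rpow_mul hr.le]
    have : -(1 / m) * (2 * m) = -((2 : ℕ) : ℝ) := by
      have : m ≠ 0 := by linarith
      push_cast
      field_simp
    rw [this, Real.rpow_neg hr.le, Real.rpow_natCast, inv_pow]
  rw [← h2]
  exact Real.rpow_le_rpow h1.le (by linarith) (by linarith)

theorem Ew_upper {m c t : ℝ} (hm : 1 ≤ m) {B : ℝ} (hB : 0 ≤ B) (hc : 0 ≤ c) (ht : 0 < t)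
    (hcB : c ≤ B * t ^ (-(1 / m))) : Ew m c t ≤ (1 + B) ^ (2 * m) * t⁻¹ ^ 2 := by
  unfold Ew
  have h1 := Real.rpow_pos_of_pos ht (-(1 / m))
  have h2 : (t ^ (-(1 / m))) ^ (2 * m) = t⁻¹ ^ 2 := by
    rw [← Real.rpow_mul ht.le]
    have : -(1 / m) * (2 * m) = -((2 : ℕ) : ℝ) := by
      have : m ≠ 0 := by linarith
      push_cast
      field_simp
    rw [this, Real.rpow_neg ht.le, Real.rpow_natCast, inv_pow]
  rw [← h2, ← Real.mul_rpow (by linarith) h1.le]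
  exact Real.rpow_le_rpow (by linarith) (by linarith) (by linarith)

end Pool.Agent.H11.PH
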