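import Pool.Agent.H41.PHEnergy

/-! # Freezing, algebraic part (job F for MP_6c6114_an) -/

open MeasureTheory Set Metric Filter Topology ContDiff Complex
open scoped ENNReal ComplexConjugate

namespace Pool.Agent.H11.PH

open Pool.Agent.H52.PH Pool.Agent.H41.PH

theorem unit_sq {s : ℂ} (hs : ‖s‖ = 1) : s.re ^ 2 + s.im ^ 2 = 1 := by
  have := Complex.sq_norm s
  rw [hs, Complex.normSq_apply] at this
  linarith

theorem frame_id {s : ℂ} (hs : ‖s‖ = 1) (v : ℂ) :
    v = (conj s * v).re • s + (conj s * v).im • (I * s) := by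
  have h1 := unit_sq hs
  apply Complex.ext
  · simp only [add_re, real_smul, mul_re, mul_im, ofReal_re, ofReal_im, I_re, I_im, conj_re,
      conj_im]
    linear_combination (-v.re) * h1
  · simp only [add_im, real_smul, mul_re, mul_im, ofReal_re, ofReal_im, I_re, I_im, conj_re,
      conj_im]
    linear_combination (-v.im) * h1

/-- Coordinates in an orthonormal frame. -/
theorem frame_apply (D : ℂ →L[ℝ] ℂ) {s : ℂ} (hs : ‖s‖ = 1) (v : ℂ) :
    D v = (conj s * v).re • D s + (conj s * v).im • D (I * s) := by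
  conv_lhs => rw [frame_id hs v]
  rw [map_add, map_smul, map_smul]

/-- The norm in an orthonormal frame. -/
theorem frame_norm_sq {s : ℂ} (hs : ‖s‖ = 1) (a b : ℝ) :
    ‖a • s + b • (I * s)‖ ^ 2 = a ^ 2 + b ^ 2 := by
  have h1 := unit_sq hs
  rw [Complex.sq_norm, Complex.normSq_apply]
  simp only [add_re, add_im, real_smul, mul_re, mul_im, ofReal_re, ofReal_im, I_re, I_im]
  linear_combination (a ^ 2 + b ^ 2) * h1

theorem conj_mul_norm_sq {s : ℂ} (hs : ‖s‖ = 1) (v : ℂ) :
    (conj s * v).re ^ 2 + (conj s * v).im ^ 2 = ‖v‖ ^ 2 := by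
  have h1 := Complex.sq_norm (conj s * v)
  rw [norm_mul, RCLike.norm_conj, hs, one_mul, Complex.normSq_apply] at h1
  rw [h1]; ring

/-- The Jacobian in an orthonormal frame. -/
theorem jac_of_frame {D : ℂ →L[ℝ] ℂ} {s : ℂ} (hs : ‖s‖ = 1) {a b c d : ℝ}
    (h1 : D s = a • s + b • (I * s)) (h2 : D (I * s) = c • s + d • (I * s)) :
    jac D = a * d - b * c := by
  have h := jac_frame D s hs 1
  have e1 := unit_sq hs
  rw [ofReal_one, one_mul, one_mul, h1, h2] at h
  rw [← h]
  simp only [mul_im, add_re, add_im, real_smul, mul_re, ofReal_re, ofReal_im, I_re, I_im,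
    conj_re, conj_im]
  linear_combination (a * d - b * c) * (s.re ^ 2 + s.im ^ 2) * e1 + (a * d - b * c) * e1 -
    (a * d - b * c) * (s.re ^ 2 + s.im ^ 2) * e1

theorem pstruct_jac {m : ℝ} {s : ℂ} {P R : ℝ} {H : ℂ →L[ℝ] ℂ} (hs : ‖s‖ = 1)
    (h1 : H s = (P : ℝ) • s + (R : ℝ) • (I * s))
    (h2 : H (I * s) = (R : ℝ) • s - (m * P : ℝ) • (I * s)) :
    -jac H = m * P ^ 2 + R ^ 2 := by
  have h2' : H (I * s) = R • s + (-(m * P)) • (I * s) := by
    rw [h2, neg_smul, sub_eq_add_neg]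
  rw [jac_of_frame hs h1 h2']
  ring

/-- F0. -/
theorem pstruct_qr {m : ℝ} (hm : 1 ≤ m) {G : ℂ} {H : ℂ →L[ℝ] ℂ} (h : PStruct m G H) :
    QR m H := by
  obtain ⟨s, P, R, hs, -, h1, h2⟩ := h
  have hj := pstruct_jac hs h1 h2
  unfold QR
  rw [hj]
  have h0 : 0 ≤ m * (m * P ^ 2 + R ^ 2) := by positivity
  have key : ‖H‖ ≤ Real.sqrt (m * (m * P ^ 2 + R ^ 2)) := by
    refine ContinuousLinearMap.opNorm_le_bound _ (Real.sqrt_nonneg _) fun v => ?_
    refine le_of_sq_le_sq ?_ (by positivity)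
    rw [mul_pow, Real.sq_sqrt h0, ← conj_mul_norm_sq hs v, frame_apply H hs v, h1, h2]
    set a := (conj s * v).re
    set b := (conj s * v).im
    have e : a • (P • s + R • (I * s)) + b • (R • s - (m * P) • (I * s)) =
        (a * P + b * R) • s + (a * R - m * b * P) • (I * s) := by
      simp only [smul_add, smul_sub, smul_smul, add_smul, sub_smul]
      have : b * (m * P) = m * b * P := by ring
      rw [this]
      abel
    rw [e, frame_norm_sq hs]
    have h3 : 0 ≤ (m - 1) * ((a * P + b * R) ^ 2 + m * (a * P) ^ 2 + (a * R) ^ 2) := by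
      have : 0 ≤ m - 1 := by linarith
      positivity
    nlinarith [h3]
  have h4 := pow_le_pow_left₀ (norm_nonneg _) key 2
  rwa [Real.sq_sqrt h0] at h4

/-- The stretching by `k` in the direction `e`. -/
noncomputable def stretch (k : ℝ) (e : ℂ) : ℂ →L[ℝ] ℂ :=
  ContinuousLinearMap.id ℝ ℂ +
    (k - 1) • ((reCLM.comp (ContinuousLinearMap.mul ℝ ℂ (conj e))).smulRight e)

theorem stretch_apply (k : ℝ) (e v : ℂ) :
    stretch k e v = v + ((k - 1) * (conj e * v).re) • e := by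
  simp only [stretch, add_apply, ContinuousLinearMap.id_apply,
    smul_apply, ContinuousLinearMap.smulRight_apply,
    ContinuousLinearMap.comp_apply, ContinuousLinearMap.mul_apply', reCLM_apply, smul_smul]

theorem stretch_self (k : ℝ) {e : ℂ} (he : ‖e‖ = 1) : stretch k e e = k • e := by
  have h1 := unit_sq he
  rw [stretch_apply]
  have h2 : (conj e * e).re = 1 := by
    simp only [mul_re, conj_re, conj_im]
    linarith
  rw [h2, mul_one, sub_smul, one_smul]
  abel

theorem stretch_I (k : ℝ) (e : ℂ) : stretch k e (I * e) = I * e := by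
  rw [stretch_apply]
  have h2 : (conj e * (I * e)).re = 0 := by
    simp only [mul_re, mul_im, conj_re, conj_im, I_re, I_im]
    ring
  rw [h2, mul_zero, zero_smul, add_zero]

theorem stretch_stretch {k k' : ℝ} (hk : k' * k = 1) {e : ℂ} (he : ‖e‖ = 1) (v : ℂ) :
    stretch k' e (stretch k e v) = v := by
  rw [frame_apply (stretch k e) he v, stretch_self k he, stretch_I, map_add, map_smul, map_smul,
    map_smul, stretch_self k' he, stretch_I, smul_smul, smul_smul, mul_assoc, mul_comm k k', hk,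
    mul_one]
  have := frame_apply (ContinuousLinearMap.id ℝ ℂ) he v
  simpa using this.symm

/-- The stretching as an equivalence. -/
noncomputable def stretchEquiv {k : ℝ} (hk : 0 < k) {e : ℂ} (he : ‖e‖ = 1) : ℂ ≃L[ℝ] ℂ :=
  ContinuousLinearEquiv.equivOfInverse (stretch k e) (stretch k⁻¹ e)
    (fun v => stretch_stretch (inv_mul_cancel₀ hk.ne') he v)
    (fun v => stretch_stretch (mul_inv_cancel₀ hk.ne') he v)

theorem stretchEquiv_apply {k : ℝ} (hk : 0 < k) {e : ℂ} (he : ‖e‖ = 1) (v : ℂ) :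
    stretchEquiv hk he v = stretch k e v := rfl

theorem stretch_norm_sq (k : ℝ) {e : ℂ} (he : ‖e‖ = 1) (v : ℂ) :
    ‖stretch k e v‖ ^ 2 = (k * (conj e * v).re) ^ 2 + (conj e * v).im ^ 2 := by
  rw [frame_apply (stretch k e) he v, stretch_self k he, stretch_I, smul_smul, frame_norm_sq he]
  ring

theorem norm_le_stretch {k : ℝ} (hk : 1 ≤ k) {e : ℂ} (he : ‖e‖ = 1) (v : ℂ) :
    ‖v‖ ≤ ‖stretch k e v‖ := by
  refine le_of_sq_le_sq ?_ (norm_nonneg _)
  rw [stretch_norm_sq k he, ← conj_mul_norm_sq he v]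
  nlinarith [sq_nonneg (conj e * v).re, mul_nonneg (by nlinarith : (0:ℝ) ≤ k ^ 2 - 1)
    (sq_nonneg (conj e * v).re)]

theorem stretch_norm_le {k : ℝ} (hk : 1 ≤ k) {e : ℂ} (he : ‖e‖ = 1) (v : ℂ) :
    ‖stretch k e v‖ ≤ k * ‖v‖ := by
  refine le_of_sq_le_sq ?_ (by positivity)
  rw [stretch_norm_sq k he, mul_pow k ‖v‖, ← conj_mul_norm_sq he v]
  nlinarith [mul_nonneg (by nlinarith : (0:ℝ) ≤ k ^ 2 - 1) (sq_nonneg (conj e * v).im)]

/-- Multiplicativity of the Jacobian. -/
theorem jac_comp (A B : ℂ →L[ℝ] ℂ) : jac (A.comp B) = jac A * jac B := by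
  unfold jac
  simp only [ContinuousLinearMap.comp_apply]
  rw [clm_apply_re_im A (B 1), clm_apply_re_im A (B I)]
  simp only [add_re, add_im, real_smul, mul_re, mul_im, ofReal_re, ofReal_im]
  ring

theorem jac_stretch (k : ℝ) {e : ℂ} (he : ‖e‖ = 1) : jac (stretch k e) = k := by
  have h1 : stretch k e e = k • e + (0 : ℝ) • (I * e) := by
    rw [stretch_self k he, zero_smul, add_zero]
  have h2 : stretch k e (I * e) = (0 : ℝ) • e + (1 : ℝ) • (I * e) := by
    rw [stretch_I, zero_smul, zero_add, one_smul]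
  rw [jac_of_frame he h1 h2]; ring

/-- symmetric maps in an orthonormal frame -/
theorem pstruct_sym {m : ℝ} {s : ℂ} {P R : ℝ} {H : ℂ →L[ℝ] ℂ} (hs : ‖s‖ = 1)
    (h1 : H s = (P : ℝ) • s + (R : ℝ) • (I * s))
    (h2 : H (I * s) = (R : ℝ) • s - (m * P : ℝ) • (I * s)) :
    (H 1).im = (H I).re ∧ (H 1).re + (H I).im = -((m - 1) * (conj s * H s).re) := by
  have e1 := unit_sq hs
  have a1 := frame_apply H hs 1
  have a2 := frame_apply H hs I
  rw [h1, h2] at a1 a2
  have b1 := congrArg Complex.re a1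
  have b2 := congrArg Complex.im a1
  have b3 := congrArg Complex.re a2
  have b4 := congrArg Complex.im a2
  rw [h1]
  simp only [add_re, add_im, sub_re, sub_im, real_smul, mul_re, mul_im, ofReal_re, ofReal_im,
    I_re, I_im, conj_re, conj_im, one_re, one_im] at b1 b2 b3 b4 ⊢
  rw [b1, b2, b3, b4]
  constructor
  · ring
  · linear_combination (-(m * P) + P + (m - 1) * P) * e1 - (m - 1) * P * (e1 - e1)

theorem freeze_aux {X t j δ Y : ℝ} (hX : 0 ≤ X) (hj : 0 ≤ j) (hδ : 0 ≤ δ)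
    (h1 : X ^ 2 = t * Y + j) (hY : |Y| ≤ X) (ht : |t| ≤ δ * Real.sqrt j) :
    X ^ 2 ≤ (1 + δ) ^ 2 * j := by
  set w := Real.sqrt j with hw
  have hw0 : 0 ≤ w := Real.sqrt_nonneg _
  have hwj : w ^ 2 = j := Real.sq_sqrt hj
  have h2 : X ^ 2 ≤ δ * w * X + w ^ 2 := by
    rw [h1, hwj]
    have : t * Y ≤ |t| * |Y| := (le_abs_self _).trans (le_of_eq (abs_mul _ _))
    have h3 : |t| * |Y| ≤ δ * w * X := mul_le_mul ht hY (abs_nonneg _) (by positivity)
    linarith
  have h3 : X ≤ (1 + δ) * w := by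
    by_contra hlt
    push Not at hlt
    have h4 : 0 < X := lt_of_le_of_lt (by positivity) hlt
    have h5 : w ≤ X := by nlinarith [mul_nonneg hδ hw0]
    nlinarith [mul_pos h4 (sub_pos.2 hlt)]
  calc X ^ 2 ≤ ((1 + δ) * w) ^ 2 := pow_le_pow_left₀ hX h3 2
    _ = (1 + δ) ^ 2 * j := by rw [mul_pow, hwj]

/-- The frozen inequality. -/
theorem freeze_ineq {m : ℝ} (hm : 1 ≤ m) {s e : ℂ} {P R : ℝ} {H : ℂ →L[ℝ] ℂ} (hs : ‖s‖ = 1)
    (h1 : H s = (P : ℝ) • s + (R : ℝ) • (I * s))
    (h2 : H (I * s) = (R : ℝ) • s - (m * P : ℝ) • (I * s)) (he : ‖e‖ = 1) {τ : ℂ}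
    (hτ : ‖τ‖ = 1) :
    ‖(stretch (Real.sqrt m) e).comp (H.comp (stretch (Real.sqrt m) e)) τ‖ ^ 2 ≤
      (1 + 2 * (m - 1) * ‖e - s‖) ^ 2 *
        -jac ((stretch (Real.sqrt m) e).comp (H.comp (stretch (Real.sqrt m) e))) := by
  set k := Real.sqrt m with hk
  have hk2 : k ^ 2 = m := Real.sq_sqrt (by linarith)
  have hjH := pstruct_jac hs h1 h2
  have hj : -jac ((stretch k e).comp (H.comp (stretch k e))) = m * (m * P ^ 2 + R ^ 2) := by
    rw [jac_comp, jac_comp, jac_stretch k he]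
    linear_combination k ^ 2 * hjH + (m * P ^ 2 + R ^ 2) * hk2
  have hj0 : 0 ≤ m * (m * P ^ 2 + R ^ 2) := by positivity
  have hQR : ‖H‖ ^ 2 ≤ m * (m * P ^ 2 + R ^ 2) := by
    have := pstruct_qr (G := s) hm ⟨s, P, R, hs, by simp [hs], h1, h2⟩
    unfold QR at this
    rwa [hjH] at this
  have hHn : ‖H‖ ≤ Real.sqrt (m * (m * P ^ 2 + R ^ 2)) := Real.le_sqrt_of_sq_le hQR
  obtain ⟨hsym, htr⟩ := pstruct_sym hs h1 h2
  have ee := unit_sq he
  set a := (conj e * H e).re with ha
  set b := (conj e * H e).im with hb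
  set d := (conj e * H (I * e)).im with hd
  have hb' : (conj e * H (I * e)).re = b := by
    rw [hb, clm_apply_re_im H e, clm_apply_re_im H (I * e)]
    simp only [mul_re, mul_im, conj_re, conj_im, I_re, I_im, add_re, add_im, real_smul,
      ofReal_re, ofReal_im]
    rw [hsym]
    ring
  have had : a + d = -((m - 1) * (conj s * H s).re) := by
    rw [← htr, ha, hd, clm_apply_re_im H e, clm_apply_re_im H (I * e)]
    simp only [mul_re, mul_im, conj_re, conj_im, I_re, I_im, add_re, add_im, real_smul,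
      ofReal_re, ofReal_im]
    rw [hsym]
    linear_combination ((H 1).re + (H I).im) * ee
  have hHe : H e = a • e + b • (I * e) := frame_id he (H e)
  have hHie : H (I * e) = b • e + d • (I * e) := by
    rw [← hb']
    exact frame_id he (H (I * e))
  have hL1 : (stretch k e).comp (H.comp (stretch k e)) e = (m * a) • e + (k * b) • (I * e) := by
    simp only [ContinuousLinearMap.comp_apply]
    rw [stretch_self k he, map_smul, hHe, map_smul, map_add, map_smul, map_smul,
      stretch_self k he, stretch_I, smul_add, smul_smul, smul_smul, smul_smul]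
    rw [← hk2]
    ring_nf
  have hL2 : (stretch k e).comp (H.comp (stretch k e)) (I * e) =
      (k * b) • e + d • (I * e) := by
    simp only [ContinuousLinearMap.comp_apply]
    rw [stretch_I, hHie, map_add, map_smul, map_smul, stretch_self k he, stretch_I, smul_smul]
    rw [mul_comm b k]
  have hj' : m * (m * P ^ 2 + R ^ 2) = -(m * (a * d - b ^ 2)) := by
    rw [← hj, jac_of_frame he hL1 hL2]
    linear_combination b ^ 2 * hk2
  set t1 := (conj e * τ).re with ht1
  set t2 := (conj e * τ).im with ht2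
  have ht : t1 ^ 2 + t2 ^ 2 = 1 := by
    rw [ht1, ht2, conj_mul_norm_sq he τ, hτ]; ring
  have hX : ‖(stretch k e).comp (H.comp (stretch k e)) τ‖ ^ 2 =
      (m * a * t1 + k * b * t2) ^ 2 + (k * b * t1 + d * t2) ^ 2 := by
    rw [frame_apply _ he τ, hL1, hL2, ← ht1, ← ht2, ← frame_norm_sq he]
    congr 2
    simp only [smul_add, smul_smul, add_smul]
    rw [show t1 * (m * a) = m * a * t1 by ring, show t1 * (k * b) = k * b * t1 by ring,
      show t2 * (k * b) = k * b * t2 by ring, show t2 * d = d * t2 by ring]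
    abel
  rw [hj]
  refine freeze_aux (norm_nonneg _) hj0 (by nlinarith [norm_nonneg (e - s)] : 0 ≤ 2 * (m - 1) * ‖e - s‖)
    (t := m * a + d) (Y := m * a * t1 ^ 2 + 2 * (k * b) * t1 * t2 + d * t2 ^ 2) ?_ ?_ ?_
  · rw [hX, hj']
    linear_combination (b ^ 2 * (t1 ^ 2 + t2 ^ 2)) * hk2 - (m * (a * d - b ^ 2)) * ht
  · refine abs_le_of_sq_le_sq ?_ (norm_nonneg _)
    rw [hX]
    have h6 : ((m * a * t1 + k * b * t2) ^ 2 + (k * b * t1 + d * t2) ^ 2) =
        (m * a * t1 ^ 2 + 2 * (k * b) * t1 * t2 + d * t2 ^ 2) ^ 2 +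
          ((m * a * t1 + k * b * t2) * t2 - (k * b * t1 + d * t2) * t1) ^ 2 := by
      linear_combination (-((m * a * t1 + k * b * t2) ^ 2 + (k * b * t1 + d * t2) ^ 2)) * ht
    rw [h6]
    exact le_add_of_nonneg_right (sq_nonneg _)
  · have h3 : m * a + d = (m - 1) * (conj (e - s) * H e + conj s * H (e - s)).re := by
      have : (conj (e - s) * H e + conj s * H (e - s)).re = a - (conj s * H s).re := by
        rw [ha, map_sub, map_sub]
        simp only [mul_re, add_re, sub_re, sub_im]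
        ring
      rw [this]
      linear_combination had
    rw [h3, abs_mul, abs_of_nonneg (by linarith : 0 ≤ m - 1)]
    have h4 : |(conj (e - s) * H e + conj s * H (e - s)).re| ≤ 2 * ‖e - s‖ * ‖H‖ := by
      refine (Complex.abs_re_le_norm _).trans ((norm_add_le _ _).trans ?_)
      rw [norm_mul, norm_mul, RCLike.norm_conj, RCLike.norm_conj, hs, one_mul]
      have h5 : ‖H e‖ ≤ ‖H‖ := by
        have := H.le_opNorm e
        rwa [he, mul_one] at this
      have h6 := H.le_opNorm (e - s)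
      have h7 : ‖e - s‖ * ‖H e‖ ≤ ‖e - s‖ * ‖H‖ := mul_le_mul_of_nonneg_left h5 (norm_nonneg _)
      linarith
    calc (m - 1) * |(conj (e - s) * H e + conj s * H (e - s)).re|
        ≤ (m - 1) * (2 * ‖e - s‖ * ‖H‖) := mul_le_mul_of_nonneg_left h4 (by linarith)
      _ ≤ (m - 1) * (2 * ‖e - s‖ * Real.sqrt (m * (m * P ^ 2 + R ^ 2))) := by
          have : 0 ≤ m - 1 := by linarith
          gcongr
      _ = _ := by ring

/-- The direction is Lipschitz away from the origin. -/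
theorem dir_close {a b s e : ℂ} (ha : a = (‖a‖ : ℝ) • s) (hb : b = (‖b‖ : ℝ) • e) (hs : ‖s‖ = 1)
    (hb0 : b ≠ 0) : ‖e - s‖ ≤ 2 * (‖a - b‖ / ‖b‖) := by
  have hbn : 0 < ‖b‖ := norm_pos_iff.2 hb0
  rw [← mul_div_assoc, le_div_iff₀ hbn]
  have h1 : (‖b‖ : ℝ) • (e - s) = (b - a) + (‖a‖ - ‖b‖ : ℝ) • s := by
    rw [smul_sub, sub_smul, ← ha, ← hb]
    abel
  have h2 : ‖e - s‖ * ‖b‖ = ‖(‖b‖ : ℝ) • (e - s)‖ := by
    rw [norm_smul, norm_norm, mul_comm]
  rw [h2, h1]
  refine (norm_add_le _ _).trans ?_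
  rw [norm_smul, hs, mul_one, norm_sub_rev b a, Real.norm_eq_abs]
  have := abs_norm_sub_norm_le a b
  linarith

end Pool.Agent.H11.PH
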