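import Pool.Agent.H11.PH.FreezeAlg

/-! # Affine change of variables for Sobolev maps (job F for MP_6c6114_an) -/

open MeasureTheory Set Metric Filter Topology ContDiff Complex
open scoped ENNReal ComplexConjugate

namespace Pool.Agent.H11.PH

open Pool.Agent.H52.PH Pool.Agent.H41.PH

/-- The affine map `y ↦ x + A y`. -/
noncomputable def aff (A : ℂ ≃L[ℝ] ℂ) (x : ℂ) : ℂ ≃ₜ ℂ := A.toHomeomorph.trans (Homeomorph.addLeft x)

theorem aff_apply (A : ℂ ≃L[ℝ] ℂ) (x y : ℂ) : aff A x y = x + A y := rfl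

theorem exists_map_aff (A : ℂ ≃L[ℝ] ℂ) (x : ℂ) : ∃ c : ℝ≥0∞, c ≠ 0 ∧ c ≠ ⊤ ∧
    Measure.map (aff A x) (volume : Measure ℂ) = c • volume := by
  have h0 : LinearMap.det (A.toLinearEquiv : ℂ →ₗ[ℝ] ℂ) ≠ 0 :=
    (LinearEquiv.isUnit_det' A.toLinearEquiv).ne_zero
  have h1 := Measure.map_linearMap_addHaar_eq_smul_addHaar (volume : Measure ℂ) h0
  refine ⟨ENNReal.ofReal |(LinearMap.det (A.toLinearEquiv : ℂ →ₗ[ℝ] ℂ))⁻¹|, ?_,
    ENNReal.ofReal_ne_top, ?_⟩
  · rw [Ne, ENNReal.ofReal_eq_zero, not_le]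
    exact abs_pos.2 (inv_ne_zero h0)
  · have h2 : (aff A x : ℂ → ℂ) = (fun z => x + z) ∘ A := rfl
    have hA : Measurable (A : ℂ → ℂ) := A.continuous.measurable
    rw [h2, ← Measure.map_map (measurable_const_add x) hA]
    have h3 : Measure.map (A : ℂ → ℂ) (volume : Measure ℂ) =
        ENNReal.ofReal |(LinearMap.det (A.toLinearEquiv : ℂ →ₗ[ℝ] ℂ))⁻¹| • volume := h1
    rw [h3, Measure.map_smul, map_add_left_eq_self]

theorem map_aff_restrict {A : ℂ ≃L[ℝ] ℂ} {x : ℂ} {c : ℝ≥0∞}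
    (hc : Measure.map (aff A x) (volume : Measure ℂ) = c • volume) (S : Set ℂ) :
    Measure.map (aff A x) (volume.restrict (aff A x ⁻¹' S)) = c • volume.restrict S := by
  rw [← Measure.restrict_smul, ← hc, (aff A x).measurableEmbedding.restrict_map]

theorem ae_comp_aff {A : ℂ ≃L[ℝ] ℂ} {x : ℂ} {c : ℝ≥0∞} (hc0 : c ≠ 0)
    (hc : Measure.map (aff A x) (volume : Measure ℂ) = c • volume) {S : Set ℂ} {p : ℂ → Prop} :
    (∀ᵐ y ∂volume.restrict (aff A x ⁻¹' S), p (aff A x y)) ↔ ∀ᵐ z ∂volume.restrict S, p z := by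
  rw [← (aff A x).measurableEmbedding.ae_map_iff, map_aff_restrict hc, Measure.ae_ennreal_smul_measure_iff hc0]

theorem aesm_comp_aff {X : Type*} [TopologicalSpace X] {A : ℂ ≃L[ℝ] ℂ} {x : ℂ} {c : ℝ≥0∞}
    (hc : Measure.map (aff A x) (volume : Measure ℂ) = c • volume) {S : Set ℂ} {f : ℂ → X}
    (hf : AEStronglyMeasurable f (volume.restrict S)) :
    AEStronglyMeasurable (fun y => f (aff A x y)) (volume.restrict (aff A x ⁻¹' S)) := by
  have h1 : AEStronglyMeasurable f (Measure.map (aff A x) (volume.restrict (aff A x ⁻¹' S))) := by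
    rw [map_aff_restrict hc]
    exact hf.smul_measure c
  exact h1.comp_measurable (aff A x).continuous.measurable

theorem eLpNorm_comp_aff {X : Type*} [NormedAddCommGroup X] {A : ℂ ≃L[ℝ] ℂ} {x : ℂ} {c : ℝ≥0∞}
    (hc0 : c ≠ 0) (hc : Measure.map (aff A x) (volume : Measure ℂ) = c • volume) {S : Set ℂ}
    {f : ℂ → X} (q : ℝ≥0∞) :
    eLpNorm (fun y => f (aff A x y)) q (volume.restrict (aff A x ⁻¹' S)) =
      c ^ (1 / q).toReal * eLpNorm f q (volume.restrict S) := by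
  have h1 := (aff A x).measurableEmbedding.eLpNorm_map_measure (p := q) (g := f)
    (μ := volume.restrict (aff A x ⁻¹' S))
  rw [map_aff_restrict hc, eLpNorm_smul_measure_of_ne_zero hc0] at h1
  exact h1.symm

theorem integral_comp_aff {A : ℂ ≃L[ℝ] ℂ} {x : ℂ} {c : ℝ≥0∞}
    (hc : Measure.map (aff A x) (volume : Measure ℂ) = c • volume) (S : Set ℂ) (f : ℂ → ℝ) :
    ∫ y in aff A x ⁻¹' S, f (aff A x y) = c.toReal * ∫ z in S, f z := by
  rw [← (aff A x).measurableEmbedding.integral_map, map_aff_restrict hc, integral_smul_measure]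
  rfl

/-- Sobolev maps under an affine change of variables and a linear map in the target. -/
theorem sob_comp_aff {q : ℝ≥0∞} {U : Set ℂ} {g : ℂ → ℂ} {D : ℂ → ℂ →L[ℝ] ℂ} (h : Sob q U g D)
    (A : ℂ ≃L[ℝ] ℂ) (B : ℂ →L[ℝ] ℂ) (x : ℂ) :
    Sob q (aff A x ⁻¹' U) (fun y => B (g (aff A x y)))
      (fun y => B.comp ((D (aff A x y)).comp (A : ℂ →L[ℝ] ℂ))) := by
  obtain ⟨c, hc0, hct, hc⟩ := exists_map_aff A x
  have hpt : ∀ f : ℂ → ℂ →L[ℝ] ℂ, (fun y => B.comp ((f (aff A x y)).comp (A : ℂ →L[ℝ] ℂ))) =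
      fun y => (fun T : ℂ →L[ℝ] ℂ => B.comp (T.comp (A : ℂ →L[ℝ] ℂ))) (f (aff A x y)) :=
    fun f => rfl
  have hcont : Continuous (fun T : ℂ →L[ℝ] ℂ => B.comp (T.comp (A : ℂ →L[ℝ] ℂ))) :=
    (continuous_const.clm_comp (continuous_id.clm_comp continuous_const))
  refine ⟨B.continuous.comp_aestronglyMeasurable (aesm_comp_aff hc h.meas),
    hcont.comp_aestronglyMeasurable (aesm_comp_aff hc h.measD), ?_⟩
  intro K hKU hK
  have hK' : IsCompact (aff A x '' K) := hK.image (aff A x).continuous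
  have hKU' : aff A x '' K ⊆ U := by
    rintro _ ⟨y, hy, rfl⟩
    exact hKU hy
  have hpre : aff A x ⁻¹' (aff A x '' K) = K := (aff A x).injective.preimage_image K
  obtain ⟨φ, hφ, h1, h2⟩ := h.approx _ hKU' hK'
  have haff : ContDiff ℝ ∞ (aff A x) := contDiff_const.add A.contDiff
  refine ⟨fun n y => B (φ n (aff A x y)), fun n => B.contDiff.comp ((hφ n).comp haff), ?_, ?_⟩
  · have key : ∀ n, eLpNorm (fun y => B (φ n (aff A x y)) - B (g (aff A x y))) q
        (volume.restrict K) ≤ ENNReal.ofReal ‖B‖ *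
          (c ^ (1 / q).toReal * eLpNorm (fun z => φ n z - g z) q
            (volume.restrict (aff A x '' K))) := by
      intro n
      rw [← eLpNorm_comp_aff hc0 hc, hpre]
      refine eLpNorm_le_mul_eLpNorm_of_ae_le_mul (Eventually.of_forall fun y => ?_) q
      rw [← map_sub]
      exact B.le_opNorm _
    refine tendsto_of_tendsto_of_tendsto_of_le_of_le tendsto_const_nhds ?_ (fun _ => bot_le) key
    have t1 := ENNReal.Tendsto.const_mul (a := c ^ (1 / q).toReal) h1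
      (Or.inr (ENNReal.rpow_ne_top_of_nonneg (ENNReal.toReal_nonneg) hct))
    have t2 := ENNReal.Tendsto.const_mul (a := ENNReal.ofReal ‖B‖) t1
      (Or.inr ENNReal.ofReal_ne_top)
    simpa using t2
  · have hfd : ∀ n y, fderiv ℝ (fun y => B (φ n (aff A x y))) y =
        B.comp ((fderiv ℝ (φ n) (aff A x y)).comp (A : ℂ →L[ℝ] ℂ)) := by
      intro n y
      have e1 : HasFDerivAt (aff A x : ℂ → ℂ) (A : ℂ →L[ℝ] ℂ) y := by
        have := (A : ℂ →L[ℝ] ℂ).hasFDerivAt (x := y)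
        exact this.const_add x
      have e2 := ((hφ n).differentiable (by simp) (aff A x y)).hasFDerivAt
      exact (B.hasFDerivAt.comp y (e2.comp y e1)).fderiv
    have key : ∀ n, eLpNorm (fun y => fderiv ℝ (fun y => B (φ n (aff A x y))) y -
        B.comp ((D (aff A x y)).comp (A : ℂ →L[ℝ] ℂ))) q
        (volume.restrict K) ≤ ENNReal.ofReal (‖B‖ * ‖(A : ℂ →L[ℝ] ℂ)‖) *
          (c ^ (1 / q).toReal * eLpNorm (fun z => fderiv ℝ (φ n) z - D z) q
            (volume.restrict (aff A x '' K))) := by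
      intro n
      rw [← eLpNorm_comp_aff hc0 hc, hpre]
      refine eLpNorm_le_mul_eLpNorm_of_ae_le_mul (Eventually.of_forall fun y => ?_) q
      rw [hfd n y]
      have e3 : B.comp ((fderiv ℝ (φ n) (aff A x y)).comp (A : ℂ →L[ℝ] ℂ)) -
          B.comp ((D (aff A x y)).comp (A : ℂ →L[ℝ] ℂ)) =
          B.comp ((fderiv ℝ (φ n) (aff A x y) - D (aff A x y)).comp (A : ℂ →L[ℝ] ℂ)) := by
        ext v
        simp
      rw [e3]
      refine (ContinuousLinearMap.opNorm_comp_le _ _).trans ?_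
      have e4 := ContinuousLinearMap.opNorm_comp_le (fderiv ℝ (φ n) (aff A x y) - D (aff A x y))
        (A : ℂ →L[ℝ] ℂ)
      calc ‖B‖ * ‖(fderiv ℝ (φ n) (aff A x y) - D (aff A x y)).comp (A : ℂ →L[ℝ] ℂ)‖
          ≤ ‖B‖ * (‖fderiv ℝ (φ n) (aff A x y) - D (aff A x y)‖ * ‖(A : ℂ →L[ℝ] ℂ)‖) :=
            mul_le_mul_of_nonneg_left e4 (norm_nonneg _)
        _ = _ := by ring
    refine tendsto_of_tendsto_of_tendsto_of_le_of_le tendsto_const_nhds ?_ (fun _ => bot_le) key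
    have t1 := ENNReal.Tendsto.const_mul (a := c ^ (1 / q).toReal) h2
      (Or.inr (ENNReal.rpow_ne_top_of_nonneg (ENNReal.toReal_nonneg) hct))
    have t2 := ENNReal.Tendsto.const_mul (a := ENNReal.ofReal (‖B‖ * ‖(A : ℂ →L[ℝ] ℂ)‖)) t1
      (Or.inr ENNReal.ofReal_ne_top)
    simpa using t2

end Pool.Agent.H11.PH
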