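import Pool.Agent.H11.PH.Freeze

/-! # Quadratic energy decay in the nondegenerate regime (job F for MP_6c6114_an) -/

open MeasureTheory Set Metric Filter Topology ContDiff Complex
open scoped ENNReal ComplexConjugate

namespace Pool.Agent.H11.PH

open Pool.Agent.H52.PH Pool.Agent.H41.PH

theorem pstruct_jac_nonneg {m : ℝ} (hm : 1 ≤ m) {G : ℂ} {H : ℂ →L[ℝ] ℂ} (h : PStruct m G H) :
    0 ≤ -jac H := by
  obtain ⟨s, P, R, hs, -, h1, h2⟩ := h
  rw [pstruct_jac hs h1 h2]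
  positivity

theorem image_ball_sub {m : ℝ} (hm : 1 ≤ m) {e : ℂ} (he : ‖e‖ = 1) {x : ℂ} {ρ : ℝ}
    (hk : 0 < Real.sqrt m) :
    aff (stretchEquiv hk he) x '' ball 0 ρ ⊆ ball x (Real.sqrt m * ρ) := by
  rintro _ ⟨y, hy, rfl⟩
  rw [aff_apply, mem_ball, dist_eq_norm, add_sub_cancel_left, stretchEquiv_apply]
  have h1 : 1 ≤ Real.sqrt m := Real.one_le_sqrt.2 hm
  rw [mem_ball, dist_zero_right] at hy
  exact (stretch_norm_le h1 he y).trans_lt (mul_lt_mul_of_pos_left hy hk)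

theorem sub_image_ball {m : ℝ} (hm : 1 ≤ m) {e : ℂ} (he : ‖e‖ = 1) {x : ℂ} {ρ : ℝ}
    (hk : 0 < Real.sqrt m) :
    ball x ρ ⊆ aff (stretchEquiv hk he) x '' ball 0 ρ := by
  intro z hz
  refine ⟨(aff (stretchEquiv hk he) x).symm z, ?_, (aff (stretchEquiv hk he) x).apply_symm_apply z⟩
  have h1 : 1 ≤ Real.sqrt m := Real.one_le_sqrt.2 hm
  set y := (aff (stretchEquiv hk he) x).symm z with hy
  have h2 : x + stretch (Real.sqrt m) e y = z := by
    have := (aff (stretchEquiv hk he) x).apply_symm_apply z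
    rwa [← hy, aff_apply, stretchEquiv_apply] at this
  rw [mem_ball, dist_zero_right]
  rw [mem_ball, dist_eq_norm, ← h2, add_sub_cancel_left] at hz
  exact (norm_le_stretch h1 he y).trans_lt hz

/-- The pointwise inequality for the frozen map. -/
theorem frozen_pointwise {m : ℝ} (hm : 1 ≤ m) {G G0 : ℂ} {H : ℂ →L[ℝ] ℂ} (h : PStruct m G H)
    {e : ℂ} (he : ‖e‖ = 1) (hG0 : G0 = (‖G0‖ : ℝ) • e) (hG0' : G0 ≠ 0)
    (hclose : ‖G - G0‖ ≤ (1 / 2) * ‖G0‖) {τ : ℂ} (hτ : ‖τ‖ = 1) {ε : ℝ}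
    (hε : ‖G - G0‖ ≤ ε * ‖G0‖) :
    ‖(stretch (Real.sqrt m) e).comp (H.comp (stretch (Real.sqrt m) e)) τ‖ ^ 2 ≤
      (1 + 8 * m ^ 2 * ε) *
        -jac ((stretch (Real.sqrt m) e).comp (H.comp (stretch (Real.sqrt m) e))) := by
  have hj0 : 0 ≤ -jac ((stretch (Real.sqrt m) e).comp (H.comp (stretch (Real.sqrt m) e))) := by
    have h1 := pstruct_jac_nonneg hm h
    rw [jac_comp, jac_comp, jac_stretch _ he]
    have h2 : 0 ≤ Real.sqrt m := Real.sqrt_nonneg m
    nlinarith [mul_nonneg (mul_nonneg h2 h2) h1]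
  obtain ⟨s, P, R, hs, hG, h1, h2⟩ := h
  have key := freeze_ineq hm hs h1 h2 he hτ
  refine key.trans (mul_le_mul_of_nonneg_right ?_ hj0)
  have hn : 0 < ‖G0‖ := norm_pos_iff.2 hG0'
  have h3 := dir_close hG hG0 hs hG0'
  have h4 : ‖G - G0‖ / ‖G0‖ ≤ 1 / 2 := by rwa [div_le_iff₀ hn]
  have h5 : ‖G - G0‖ / ‖G0‖ ≤ ε := by rwa [div_le_iff₀ hn]
  set η := ‖e - s‖ with hη
  have hη0 : 0 ≤ η := norm_nonneg _
  have hη1 : η ≤ 1 := by linarith
  have hη2 : η ≤ 2 * ε := by linarith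
  have hm1 : 0 ≤ m - 1 := by linarith
  have h6 : (1 + 2 * (m - 1) * η) ^ 2 ≤ 1 + 4 * m * (m - 1) * η := by
    nlinarith [mul_nonneg hm1 hη0, mul_nonneg (mul_nonneg hm1 hm1) (mul_nonneg hη0 (sub_nonneg.2 hη1))]
  have h7 : 4 * m * (m - 1) * η ≤ 4 * m * (m - 1) * (2 * ε) := by
    have : 0 ≤ 4 * m * (m - 1) := by nlinarith
    exact mul_le_mul_of_nonneg_left hη2 this
  have h8 : 4 * m * (m - 1) * (2 * ε) ≤ 8 * m ^ 2 * ε := by
    have : 0 ≤ ε := by linarith
    nlinarith [mul_nonneg (by linarith : (0:ℝ) ≤ m) this]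
  linarith

/-- The statement of `qr_holder`. -/
def HolderSpec (K : ℝ) : Prop := ∃ C : ℝ, 0 < C ∧
    ∀ (U : Set ℂ) (g : ℂ → ℂ) (D : ℂ → ℂ →L[ℝ] ℂ) (x : ℂ) (R : ℝ), IsOpen U → Sob 2 U g D →
      ContinuousOn g U → (∀ᵐ z ∂volume.restrict U, QR K (D z)) → 0 < R → closedBall x R ⊆ U →
      ∀ y ∈ ball x (R / 2), ∀ z ∈ ball x (R / 2),
        ‖g y - g z‖ ≤ C * (‖y - z‖ / R) ^ (1 / K) * Real.sqrt (∫ z in ball x R, -jac (D z))

/-- The statement of `qr_caccioppoli`. -/
def CaccSpec (K : ℝ) : Prop := ∃ C : ℝ, 0 < C ∧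
    ∀ (U : Set ℂ) (g : ℂ → ℂ) (D : ℂ → ℂ →L[ℝ] ℂ) (x : ℂ) (r R : ℝ) (c : ℂ), IsOpen U →
      Sob 2 U g D → (∀ᵐ z ∂volume.restrict U, QR K (D z)) → 0 < r → r < R → closedBall x R ⊆ U →
      ∫ z in ball x r, -jac (D z) ≤ C / (R - r) ^ 2 * ∫ z in ball x R, ‖g z - c‖ ^ 2

/-- The Hölder estimate for the gradient. -/
theorem grad_holder (m : ℝ) (hm : 1 ≤ m) (hHo : HolderSpec m) (hCa : CaccSpec m) :
    ∃ C : ℝ, 0 < C ∧
    ∀ (U : Set ℂ) (G : ℂ → ℂ) (D : ℂ → ℂ →L[ℝ] ℂ) (x : ℂ) (R : ℝ), IsOpen U → Sob 2 U G D →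
      ContinuousOn G U → (∀ᵐ z ∂volume.restrict U, PStruct m (G z) (D z)) → 0 < R →
      closedBall x R ⊆ U → (∀ z ∈ ball x R, ‖G z - G x‖ ≤ (1 / 2) * ‖G x‖) →
      ∀ z ∈ ball x (R / 4), ‖G z - G x‖ ≤ C * (‖z - x‖ / R) ^ (1 / m) * ‖G x‖ := by
  obtain ⟨Ch, hCh, holder⟩ := hHo
  obtain ⟨Cc, hCc, cacc⟩ := hCa
  refine ⟨2 * Ch * Real.sqrt (Cc * Real.pi), by positivity, ?_⟩
  intro U G D x R hU hS hGc hP hR hb hclose z hz
  have hQR : ∀ᵐ z ∂volume.restrict U, QR m (D z) := by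
    filter_upwards [hP] with z hz
    exact pstruct_qr hm hz
  have hb2 : closedBall x (R / 2) ⊆ U := (closedBall_subset_closedBall (by linarith)).trans hb
  have h1 := holder U G D x (R / 2) hU hS hGc hQR (by linarith) hb2 z
    (by convert hz using 2; ring) x (by rw [mem_ball, dist_self]; linarith)
  have h2 := cacc U G D x (R / 2) R (G x) hU hS hQR (by linarith) (by linarith) hb
  have hint : IntegrableOn (fun z => ‖G z - G x‖ ^ 2) (ball x R) := by
    have h3 : ContinuousOn (fun z => ‖G z - G x‖ ^ 2) (closedBall x R) :=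
      (((hGc.mono hb).sub continuousOn_const).norm).pow 2
    exact (h3.integrableOn_compact (isCompact_closedBall x R)).mono_set ball_subset_closedBall
  have h4 : ∫ z in ball x R, ‖G z - G x‖ ^ 2 ≤ ∫ z in ball x R, ((1 / 2) * ‖G x‖) ^ 2 := by
    refine setIntegral_mono_on hint (integrableOn_const (by
      exact measure_ball_lt_top.ne)) measurableSet_ball ?_
    intro z hz
    exact pow_le_pow_left₀ (norm_nonneg _) (hclose z hz) 2
  have h5 : ∫ z in ball x R, ((1 / 2) * ‖G x‖) ^ 2 = Real.pi * R ^ 2 * ((1 / 2) * ‖G x‖) ^ 2 := by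
    have hv : volume.real (ball x R) = Real.pi * R ^ 2 := by
      rw [Measure.real, Complex.volume_ball, ENNReal.toReal_mul, ENNReal.toReal_pow,
        ENNReal.toReal_ofReal hR.le]
      simp [mul_comm]
    rw [setIntegral_const, hv, smul_eq_mul]
  have h6 : ∫ z in ball x (R / 2), -jac (D z) ≤ Cc * Real.pi * ‖G x‖ ^ 2 := by
    refine h2.trans ?_
    rw [h5] at h4
    have h7 : 0 ≤ Cc / (R - R / 2) ^ 2 := by positivity
    refine (mul_le_mul_of_nonneg_left h4 h7).trans (le_of_eq ?_)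
    have : R ≠ 0 := hR.ne'
    field_simp
    ring
  have h8 : Real.sqrt (∫ z in ball x (R / 2), -jac (D z)) ≤
      Real.sqrt (Cc * Real.pi) * ‖G x‖ := by
    refine (Real.sqrt_le_sqrt h6).trans ?_
    rw [Real.sqrt_mul (by positivity), Real.sqrt_sq (norm_nonneg _)]
  have h9 : (‖z - x‖ / (R / 2)) ^ (1 / m) ≤ 2 * (‖z - x‖ / R) ^ (1 / m) := by
    have e1 : ‖z - x‖ / (R / 2) = 2 * (‖z - x‖ / R) := by field_simp
    rw [e1, Real.mul_rpow (by norm_num) (by positivity)]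
    have e2 : (2 : ℝ) ^ (1 / m) ≤ 2 := by
      calc (2 : ℝ) ^ (1 / m) ≤ 2 ^ (1 : ℝ) :=
            Real.rpow_le_rpow_of_exponent_le (by norm_num) (by
              rw [div_le_one (by linarith)]; exact hm)
        _ = 2 := by norm_num
    have : 0 ≤ (‖z - x‖ / R) ^ (1 / m) := by positivity
    nlinarith
  calc ‖G z - G x‖ ≤ Ch * (‖z - x‖ / (R / 2)) ^ (1 / m) *
        Real.sqrt (∫ z in ball x (R / 2), -jac (D z)) := h1
    _ ≤ Ch * (2 * (‖z - x‖ / R) ^ (1 / m)) * (Real.sqrt (Cc * Real.pi) * ‖G x‖) := by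
        gcongr
    _ = _ := by ring

/-- F1, from the Hölder estimate D3 and the Caccioppoli inequality E1: to be used as
`nondeg_decay_of m hm (qr_holder m hm) (qr_caccioppoli m hm)`. -/
theorem nondeg_decay_of (m : ℝ) (hm : 1 ≤ m) (hHo : HolderSpec m) (hCa : CaccSpec m) :
    ∃ C : ℝ, 0 < C ∧
    ∀ (U : Set ℂ) (G : ℂ → ℂ) (D : ℂ → ℂ →L[ℝ] ℂ) (x : ℂ) (R : ℝ), IsOpen U → Sob 2 U G D →
      ContinuousOn G U → (∀ᵐ z ∂volume.restrict U, PStruct m (G z) (D z)) → 0 < R →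
      closedBall x R ⊆ U → G x ≠ 0 → (∀ z ∈ ball x R, ‖G z - G x‖ ≤ (1 / 2) * ‖G x‖) →
      ∀ r, 0 < r → r ≤ R →
        ∫ z in ball x r, -jac (D z) ≤ C * (r / R) ^ 2 * ∫ z in ball x R, -jac (D z) := by
  obtain ⟨C2, hC2, holder⟩ := grad_holder m hm hHo hCa
  have hm0 : 0 < m := by linarith
  refine ⟨16 * m * (1 + 8 * m ^ 2 * C2) ^ (2 * m), by positivity, ?_⟩
  intro U G D x R hU hS hGc hP hR hb hGx hclose r hr hrR
  have hj0 : ∀ᵐ z ∂volume.restrict U, 0 ≤ -jac (D z) := by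
    filter_upwards [hP] with z hz
    exact pstruct_jac_nonneg hm hz
  have hint : IntegrableOn (fun z => -jac (D z)) (closedBall x R) := (exists_approx_ball hb hS).2.1
  have hintb : IntegrableOn (fun z => -jac (D z)) (ball x R) :=
    hint.mono_set ball_subset_closedBall
  have hj0b : ∀ᵐ z ∂volume.restrict (ball x R), 0 ≤ -jac (D z) :=
    ae_restrict_of_ae_restrict_of_subset (ball_subset_closedBall.trans hb) hj0
  have hJR : 0 ≤ ∫ z in ball x R, -jac (D z) := integral_nonneg_of_ae hj0b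
  -- monotonicity
  have hmono : ∀ S : Set ℂ, S ⊆ ball x R →
      ∫ z in S, -jac (D z) ≤ ∫ z in ball x R, -jac (D z) := fun S hSR =>
    setIntegral_mono_set hintb hj0b (Eventually.of_forall hSR)
  set k := Real.sqrt m with hkdef
  have hk1 : 1 ≤ k := Real.one_le_sqrt.2 hm
  have hk : 0 < k := by linarith
  have hk2 : k ^ 2 = m := Real.sq_sqrt hm0.le
  have hB : 1 ≤ (1 + 8 * m ^ 2 * C2) ^ (2 * m) := by
    apply Real.one_le_rpow _ (by positivity)
    have : 0 < 8 * m ^ 2 * C2 := by positivity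
    linarith
  set R1 := R / (4 * k) with hR1def
  have hR1 : 0 < R1 := by positivity
  rcases lt_or_ge R1 r with hlt | hle
  · -- large radii
    have h1 : 1 ≤ 16 * m * (r / R) ^ 2 := by
      have h2 : 1 ≤ 4 * k * (r / R) := by
        rw [hR1def, div_lt_iff₀ (by positivity)] at hlt
        rw [← mul_div_assoc, le_div_iff₀ hR]
        linarith
      nlinarith
    have h3 : 1 ≤ 16 * m * (1 + 8 * m ^ 2 * C2) ^ (2 * m) * (r / R) ^ 2 := by
      have : 16 * m * (1 + 8 * m ^ 2 * C2) ^ (2 * m) * (r / R) ^ 2 =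
        (16 * m * (r / R) ^ 2) * (1 + 8 * m ^ 2 * C2) ^ (2 * m) := by ring
      rw [this]
      exact one_le_mul_of_one_le_of_one_le h1 hB
    refine (hmono _ (ball_subset_ball hrR)).trans ?_
    nlinarith
  · -- small radii
    set e : ℂ := (‖G x‖⁻¹ : ℝ) • G x with hedef
    have hGn : 0 < ‖G x‖ := norm_pos_iff.2 hGx
    have he : ‖e‖ = 1 := by
      rw [hedef, norm_smul, norm_inv, norm_norm, inv_mul_cancel₀ hGn.ne']
    have hGe : G x = (‖G x‖ : ℝ) • e := by
      rw [hedef, smul_smul, mul_inv_cancel₀ hGn.ne', one_smul]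
    set A := stretchEquiv hk he with hAdef
    set T := aff A x with hTdef
    obtain ⟨c0, hc0, hct, hc0m⟩ := exists_map_aff A x
    have hS' := sob_comp_aff hS A (stretch k e) x
    set G' : ℂ → ℂ := fun y => stretch k e (G (T y)) with hG'
    set D' : ℂ → ℂ →L[ℝ] ℂ := fun y => (stretch k e).comp ((D (T y)).comp (A : ℂ →L[ℝ] ℂ))
      with hD'
    have hT0 : ∀ y, T y - x = stretch k e y := fun y => by
      rw [hTdef, aff_apply, add_sub_cancel_left]; rfl
    have hTn : ∀ y, ‖T y - x‖ ≤ k * ‖y‖ := fun y => by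
      rw [hT0 y]; exact stretch_norm_le hk1 he y
    have hkR1 : k * R1 = R / 4 := by rw [hR1def]; field_simp
    have hTcb : closedBall 0 R1 ⊆ T ⁻¹' U := by
      intro y hy
      refine hb ?_
      rw [mem_closedBall, dist_zero_right] at hy
      rw [mem_closedBall, dist_eq_norm]
      have := hTn y
      nlinarith
    have hjD' : ∀ y, -jac (D' y) = m * -jac (D (T y)) := by
      intro y
      have : (A : ℂ →L[ℝ] ℂ) = stretch k e := rfl
      rw [hD', this]
      simp only [jac_comp, jac_stretch k he]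
      rw [← hk2]; ring
    set c := 8 * m ^ 2 * C2 * (k / R) ^ (1 / m) with hcdef
    have hc : 0 ≤ c := by positivity
    have hPb : ∀ᵐ y ∂volume.restrict (ball (0 : ℂ) R1), PStruct m (G (T y)) (D (T y)) := by
      have h1 := (ae_comp_aff hc0 hc0m (S := U)
        (p := fun z => PStruct m (G z) (D z))).2 hP
      exact ae_restrict_of_ae_restrict_of_subset (ball_subset_closedBall.trans hTcb) h1
    have key := energy_decay (m := 1) le_rfl (U := T ⁻¹' U) (x := 0) hr hle hTcb hS'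
      (E := Ew m c) (E' := Ew' m c) (fun s hs => Ew_hasDerivAt hm hc (hr.trans_le hs.1))
      (Ew'_continuousOn hc hr) (fun s hs => Ew'_nonpos hc (hr.trans_le hs.1)) ?_
    · -- conclusion
      have hcr : 0 < c0.toReal := ENNReal.toReal_pos hc0 hct
      have hJ' : ∀ ρ, ∫ y in ball (0 : ℂ) ρ, -jac (D' y) =
          m * c0.toReal * ∫ z in T '' ball 0 ρ, -jac (D z) := by
        intro ρ
        have h1 : T ⁻¹' (T '' ball 0 ρ) = ball 0 ρ := T.injective.preimage_image _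
        have h2 := integral_comp_aff hc0m (T '' ball 0 ρ) (fun z => -jac (D z))
        rw [← hTdef, h1] at h2
        simp_rw [hjD']
        rw [integral_const_mul, h2, mul_assoc]
      rw [hJ', hJ'] at key
      have hmc : 0 < m * c0.toReal := by positivity
      have key2 : Ew m c r * ∫ z in T '' ball 0 r, -jac (D z) ≤
          Ew m c R1 * ∫ z in T '' ball 0 R1, -jac (D z) := by
        have h1 : m * c0.toReal * (Ew m c r * ∫ z in T '' ball 0 r, -jac (D z)) ≤
            m * c0.toReal * (Ew m c R1 * ∫ z in T '' ball 0 R1, -jac (D z)) := by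
          calc _ = Ew m c r * (m * c0.toReal * ∫ z in T '' ball 0 r, -jac (D z)) := by ring
            _ ≤ Ew m c R1 * (m * c0.toReal * ∫ z in T '' ball 0 R1, -jac (D z)) := key
            _ = _ := by ring
        exact le_of_mul_le_mul_left h1 hmc
      have hTR1 : T '' ball 0 R1 ⊆ ball x R :=
        (image_ball_sub hm he hk).trans (ball_subset_ball (by rw [← hkdef, hkR1]; linarith))
      have hTr : T '' ball 0 r ⊆ ball x R := (image_mono (ball_subset_ball hle)).trans hTR1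
      have h3 : ∫ z in ball x r, -jac (D z) ≤ ∫ z in T '' ball 0 r, -jac (D z) :=
        setIntegral_mono_set (hintb.mono_set hTr)
          (ae_restrict_of_ae_restrict_of_subset hTr hj0b)
          (Eventually.of_forall (sub_image_ball hm he hk))
      have h4 := hmono _ hTR1
      have hJr : 0 ≤ ∫ z in ball x r, -jac (D z) := by
        refine integral_nonneg_of_ae (ae_restrict_of_ae_restrict_of_subset ?_ hj0b)
        exact ball_subset_ball hrR
      have hlow := Ew_lower hm hc hr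
      have hup : Ew m c R1 ≤ (1 + 8 * m ^ 2 * C2) ^ (2 * m) * R1⁻¹ ^ 2 := by
        refine Ew_upper hm (by positivity) hc hR1 ?_
        rw [hcdef]
        refine mul_le_mul_of_nonneg_left ?_ (by positivity)
        rw [Real.rpow_neg hR1.le, ← Real.inv_rpow hR1.le]
        refine Real.rpow_le_rpow (by positivity) ?_ (by positivity)
        rw [hR1def, inv_div]
        gcongr
        linarith
      have hup0 : 0 ≤ Ew m c R1 := (by positivity : (0:ℝ) ≤ R1⁻¹ ^ 2).trans (Ew_lower hm hc hR1)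
      have h5 : r⁻¹ ^ 2 * ∫ z in ball x r, -jac (D z) ≤
          (1 + 8 * m ^ 2 * C2) ^ (2 * m) * R1⁻¹ ^ 2 * ∫ z in ball x R, -jac (D z) := by
        calc r⁻¹ ^ 2 * ∫ z in ball x r, -jac (D z)
            ≤ Ew m c r * ∫ z in ball x r, -jac (D z) := mul_le_mul_of_nonneg_right hlow hJr
          _ ≤ Ew m c r * ∫ z in T '' ball 0 r, -jac (D z) :=
              mul_le_mul_of_nonneg_left h3 ((by positivity : (0:ℝ) ≤ r⁻¹ ^ 2).trans hlow)
          _ ≤ Ew m c R1 * ∫ z in T '' ball 0 R1, -jac (D z) := key2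
          _ ≤ Ew m c R1 * ∫ z in ball x R, -jac (D z) := mul_le_mul_of_nonneg_left h4 hup0
          _ ≤ _ := mul_le_mul_of_nonneg_right hup hJR
      have h6 : ∫ z in ball x r, -jac (D z) = r ^ 2 * (r⁻¹ ^ 2 * ∫ z in ball x r, -jac (D z)) := by
        rw [← mul_assoc, ← mul_pow, mul_inv_cancel₀ hr.ne', one_pow, one_mul]
      rw [h6]
      refine (mul_le_mul_of_nonneg_left h5 (by positivity)).trans (le_of_eq ?_)
      rw [hR1def, inv_div, div_pow, mul_pow, hk2, div_pow]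
      ring
    · -- the pointwise inequality
      rw [ae_restrict_iff' measurableSet_ball] at hPb ⊢
      filter_upwards [hPb] with y hy hyR hry
      have hy1 := hy hyR
      rw [sub_zero] at hry ⊢
      have hs : 0 < ‖y‖ := hr.trans_le hry
      rw [mem_ball, dist_zero_right] at hyR
      have hTy : T y ∈ ball x (R / 4) := by
        rw [mem_ball, dist_eq_norm]
        have := hTn y
        nlinarith
      have hTy' : T y ∈ ball x R := ball_subset_ball (by linarith) hTy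
      have hε := holder U G D x R hU hS hGc hP hR hb hclose (T y) hTy
      have hτ : ‖I * (y / (‖y‖ : ℝ))‖ = 1 := by
        rw [norm_mul, norm_I, one_mul, norm_div, norm_real, norm_norm, div_self hs.ne']
      have hfr := frozen_pointwise hm hy1 he hGe hGx (hclose _ hTy') hτ hε
      have hjy : 0 ≤ -jac (D' y) := by
        rw [hjD']
        exact mul_nonneg hm0.le (pstruct_jac_nonneg hm hy1)
      have hfr' : ‖D' y (I * (y / (‖y‖ : ℝ)))‖ ^ 2 ≤
          (1 + c * ‖y‖ ^ (1 / m)) * -jac (D' y) := by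
        refine hfr.trans (mul_le_mul_of_nonneg_right ?_ hjy)
        have h1 : (‖T y - x‖ / R) ^ (1 / m) ≤ (k / R) ^ (1 / m) * ‖y‖ ^ (1 / m) := by
          rw [← Real.mul_rpow (by positivity) (norm_nonneg _)]
          refine Real.rpow_le_rpow (by positivity) ?_ (by positivity)
          rw [div_mul_eq_mul_div]
          exact div_le_div_of_nonneg_right (hTn y) hR.le
        have h2 : 8 * m ^ 2 * (C2 * (‖T y - x‖ / R) ^ (1 / m)) ≤
            8 * m ^ 2 * (C2 * ((k / R) ^ (1 / m) * ‖y‖ ^ (1 / m))) := by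
          gcongr
        calc 1 + 8 * m ^ 2 * (C2 * (‖T y - x‖ / R) ^ (1 / m))
            ≤ 1 + 8 * m ^ 2 * (C2 * ((k / R) ^ (1 / m) * ‖y‖ ^ (1 / m))) := by linarith
          _ = 1 + c * ‖y‖ ^ (1 / m) := by rw [hcdef]; ring
      have hq1 : qform 1 (D' y) (y / (‖y‖ : ℝ)) = ‖D' y (I * (y / (‖y‖ : ℝ)))‖ ^ 2 := by
        unfold qform; ring
      have hkap : kap 1 = 0 := by unfold kap; norm_num
      rw [hq1, hkap]
      have hode := Ew_ode (m := m) hc hs
      have hnn : 0 ≤ -Ew' m c ‖y‖ * ‖y‖ := by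
        have := Ew'_nonpos (m := m) hc hs
        nlinarith
      calc -Ew' m c ‖y‖ * ‖y‖ * ‖D' y (I * (y / (‖y‖ : ℝ)))‖ ^ 2
          ≤ -Ew' m c ‖y‖ * ‖y‖ * ((1 + c * ‖y‖ ^ (1 / m)) * -jac (D' y)) :=
            mul_le_mul_of_nonneg_left hfr' hnn
        _ = (-Ew' m c ‖y‖ * ‖y‖ * (1 + c * ‖y‖ ^ (1 / m))) * -jac (D' y) := by ring
        _ = 2 * Ew m c ‖y‖ * -jac (D' y) := by rw [hode]
        _ = _ := by ring

end Pool.Agent.H11.PH
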